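import Pool.Agent.helper53.OT.Final

/-! MP_90837e_co: there is a simple order type that is not realized by any orientable arrangement of
pairwise disjoint bodies (the negated form of Q1). Definitions in `Pool/Agent/helper53/OT/Defs.lean`. -/

namespace Pool.Agent.Results.MP_90837e_co.NoDisjointRealization

open Pool.Agent.helper53.OT

/-- There are `n ≥ 3` and a simple order type `χ` on `Fin n` such that every orientable arrangement
realizing `χ` contains two bodies that intersect. -/
theorem result : ∃ (n : ℕ) (χ : Fin n → Fin n → Fin n → ℤ), 3 ≤ n ∧ SimpleOrderType χ ∧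
    ∀ A : Fin n → Set (ℝ × ℝ), IsArrangement A → Orientable A → Realizes χ A →
      ∃ i j, i ≠ j ∧ (A i ∩ A j).Nonempty :=
  main

end Pool.Agent.Results.MP_90837e_co.NoDisjointRealization
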